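import Pool.Agent.Work.MP_63674d_an.Weight

/-!
# The coefficient multipliers of `H^p`, `0 < p < 1`: characterisation by common weights

A complex sequence `l` is a coefficient multiplier of `H^p` into itself if and only if for every
scale `N` the windows `∑ k, b k * l (m + k) * exp (i k θ)`, `m = 0, 1, 2, ...`, of `l`, cut by the
coefficients `b k` of `(1 + X + ... + X ^ (N - 1)) ^ s`, satisfy a common weighted `L²` bound: for
some probability density `v` all the integrals of `|window|² * v ^ (1 - 2 / p)` are at most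
`C * N ^ (2 s - 2 / p)`, with `C` independent of `N`.
-/

open Finset

namespace Pool.Agent.Results.MP_63674d_an.CommonWeight

/-- `a` is the sequence of Taylor coefficients of a function of class `H^p` of the unit disc:
the power series converges in the disc and its `p`-means over circles are bounded. -/
def MemHp (p : ℝ) (a : ℕ → ℂ) : Prop :=
  (∀ z : ℂ, ‖z‖ < 1 → Summable fun n => a n * z ^ n) ∧
  ∃ C : ℝ, ∀ r : ℝ, 0 < r → r < 1 →
    ∫ θ in (0 : ℝ)..(2 * Real.pi),
      ‖∑' n, a n * ((r : ℂ) * Complex.exp (θ * Complex.I)) ^ n‖ ^ p ≤ C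

/-- `l` is a coefficient multiplier of `H^p` into `H^p`, that is, `l` belongs to `M_p`. -/
def IsMultiplier (p : ℝ) (l : ℕ → ℂ) : Prop := ∀ a, MemHp p a → MemHp p (fun n => l n * a n)

/-- The coefficient of `X ^ k` in `(1 + X + ... + X ^ (N - 1)) ^ s`. -/
noncomputable def kernelCoeff (s N k : ℕ) : ℕ :=
  ((∑ i ∈ range N, (Polynomial.X : Polynomial ℕ) ^ i) ^ s).coeff k

/-- **Characterisation of `M_p`, `0 < p < 1`, by common weights.** -/
theorem result (p : ℝ) (hp : 0 < p) (hp1 : p < 1) (s : ℕ) (hs : 1 < (s : ℝ) * p) (l : ℕ → ℂ) :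
    IsMultiplier p l ↔ ∃ C : ℝ, ∀ N : ℕ, 1 ≤ N → ∃ v : ℝ → ℝ, Continuous v ∧ (∀ θ, 0 < v θ) ∧
      ∫ θ in (0 : ℝ)..(2 * Real.pi), v θ = 1 ∧
      ∀ m : ℕ, ∫ θ in (0 : ℝ)..(2 * Real.pi),
        ‖∑ k ∈ range (s * (N - 1) + 1),
          (kernelCoeff s N k : ℂ) * l (m + k) * Complex.exp (k * θ * Complex.I)‖ ^ 2 *
            v θ ^ (1 - 2 / p) ≤ C * (N : ℝ) ^ (2 * s - 2 / p) :=
  MP63.weight_iff hp hp1 hs l

end Pool.Agent.Results.MP_63674d_an.CommonWeight
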