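import Pool.Agent.Work.MP_63674d_an.St.Lac

/-!
# Multipliers of `H^p`, `0 < p < 1`, of small dyadic variation, and sequences with lacunary jumps

Two consequences of the characterisation (`Characterisation`) of the coefficient multipliers of `H^p`:
a sequence whose total variation over the dyadic block `[2 ^ j, 2 ^ (j + 1))` is `O((2 ^ j) ^ (1 - 1 / p))`
is a multiplier; and a sequence which is constant between the terms of a Hadamard lacunary sequence
`n j` is a multiplier if and only if its jump at `n j` is `O((n j) ^ (1 - 1 / p))`.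
-/

open Finset

namespace Pool.Agent.Results.MP_63674d_an.LacunaryJumps

/-- `a` is the sequence of Taylor coefficients of a function of class `H^p` of the unit disc:
the power series converges in the disc and its `p`-means over circles are bounded. -/
def MemHp (p : ℝ) (a : ℕ → ℂ) : Prop :=
  (∀ z : ℂ, ‖z‖ < 1 → Summable fun n => a n * z ^ n) ∧
  ∃ C : ℝ, ∀ r : ℝ, 0 < r → r < 1 →
    ∫ θ in (0 : ℝ)..(2 * Real.pi),
      ‖∑' n, a n * ((r : ℂ) * Complex.exp (θ * Complex.I)) ^ n‖ ^ p ≤ C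

/-- `l` is a coefficient multiplier of `H^p` into `H^p`, that is, `l` belongs to `M_p`. -/
def IsMultiplier (p : ℝ) (l : ℕ → ℂ) : Prop := ∀ a, MemHp p a → MemHp p (fun n => l n * a n)

/-- **Small dyadic variation, and lacunary jumps.** -/
theorem result (p : ℝ) (hp : 0 < p) (hp1 : p < 1) :
    (∀ (l : ℕ → ℂ) (V : ℝ), (∀ j : ℕ, ∑ k ∈ Ico (2 ^ j) (2 ^ (j + 1)), ‖l (k + 1) - l k‖ ≤
        V * ((2 : ℝ) ^ j) ^ (1 - 1 / p)) → IsMultiplier p l) ∧
    (∀ (q : ℝ) (n : ℕ → ℕ), 1 < q → 0 < n 0 → (∀ j, q * n j ≤ n (j + 1)) →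
      ∀ l : ℕ → ℂ, (∀ k, (∀ j, n j ≠ k + 1) → l (k + 1) = l k) →
        (IsMultiplier p l ↔ ∃ C : ℝ, ∀ j, ‖l (n j) - l (n j - 1)‖ ≤ C * (n j : ℝ) ^ (1 - 1 / p))) :=
  ⟨fun l V hV => MP63.St.mult_of_variation hp hp1 l V hV,
    fun _ _ hq h0 hs l hl => MP63.St.step_iff hp hp1 ⟨h0, hq, hs⟩ l hl⟩

end Pool.Agent.Results.MP_63674d_an.LacunaryJumps
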