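import Pool.Agent.Work.MP_63674d_an.BlkE

/-!
# Rotated blocks: single windows do not characterise the coefficient multipliers of `H^p`

For real angles `t 0, t 1, ...` let `rotated t` be the sequence which is close to
`exp (-i n t j)` for `2 ^ (j ^ 2) << n << 2 ^ ((j + 1) ^ 2)`. Every single window of it satisfies
the bound of the kernel, uniformly in the angles; it is a multiplier of `H^p`, `0 < p < 1`, if and
only if the points `exp (i t j)` satisfy a covering condition; for `t j = j` it is not.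
-/

open Finset

namespace Pool.Agent.Results.MP_63674d_an.RotatedBlocks

/-- `a` is the sequence of Taylor coefficients of a function of class `H^p` of the unit disc:
the power series converges in the disc and its `p`-means over circles are bounded. -/
def MemHp (p : ℝ) (a : ℕ → ℂ) : Prop :=
  (∀ z : ℂ, ‖z‖ < 1 → Summable fun n => a n * z ^ n) ∧
  ∃ C : ℝ, ∀ r : ℝ, 0 < r → r < 1 →
    ∫ θ in (0 : ℝ)..(2 * Real.pi),
      ‖∑' n, a n * ((r : ℂ) * Complex.exp (θ * Complex.I)) ^ n‖ ^ p ≤ C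

/-- `l` is a coefficient multiplier of `H^p` into `H^p`, that is, `l` belongs to `M_p`. -/
def IsMultiplier (p : ℝ) (l : ℕ → ℂ) : Prop := ∀ a, MemHp p a → MemHp p (fun n => l n * a n)

/-- The coefficient of `X ^ k` in `(1 + X + ... + X ^ (N - 1)) ^ s`. -/
noncomputable def kernelCoeff (s N k : ℕ) : ℕ :=
  ((∑ i ∈ range N, (Polynomial.X : Polynomial ℕ) ^ i) ^ s).coeff k

/-- The sequence with blocks `[2 ^ (j ^ 2), 2 ^ ((j + 1) ^ 2)]` rotated by the angles `t j`
(an absolutely convergent sum, the weights are nonnegative with sum at most one). -/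
noncomputable def rotated (t : ℕ → ℝ) (n : ℕ) : ℂ :=
  ∑' j : ℕ, (((1 - 1 / 2 ^ ((j + 1) ^ 2)) ^ n - (1 - 1 / 2 ^ (j ^ 2)) ^ n : ℝ) : ℂ) *
    Complex.exp (-(n * t j * Complex.I))

/-- **Rotated blocks.** -/
theorem result (p : ℝ) (hp : 0 < p) (hp1 : p < 1) :
    (∀ s : ℕ, 1 < (s : ℝ) * p → ∃ C : ℝ, ∀ (t : ℕ → ℝ) (N m : ℕ), 1 ≤ N →
      ∫ θ in (0 : ℝ)..(2 * Real.pi),
        ‖∑ k ∈ range (s * (N - 1) + 1),
          (kernelCoeff s N k : ℂ) * rotated t (m + k) * Complex.exp (k * θ * Complex.I)‖ ^ p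
        ≤ C * (N : ℝ) ^ ((s : ℝ) * p - 1)) ∧
    (∀ t : ℕ → ℝ, IsMultiplier p (rotated t) ↔
      ∃ K : ℕ, ∀ J : ℕ, ∃ S : Finset ℂ, S.card ≤ K ∧
        ∀ j, J ≤ j → ∃ c ∈ S, ‖Complex.exp (t j * Complex.I) - c‖ ≤ K / 2 ^ ((J + 1) ^ 2)) ∧
    ¬ IsMultiplier p (rotated fun j => (j : ℝ)) :=
  ⟨fun _ hs => MP63.Blk.single_theta hp hp1 hs, fun t => MP63.Blk.isMult_iff hp hp1 t,
    fun h => MP63.Blk.not_cov ((MP63.Blk.isMult_iff hp hp1 _).mp h)⟩

end Pool.Agent.Results.MP_63674d_an.RotatedBlocks
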